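import Pool.Agent.VTP.StmtsW

/-! Row PLS of squad VTP. -/

set_option autoImplicit false

namespace Pool.Agent.VTP.H55

open Pool.Agent.ZOL Pool.Agent.VTP

theorem sub_cons_dec {d : ℕ} {w : Word} {x : Letter} {t : Word} (h : sub {d} w = x :: t) :
    ∃ A B : Word, w = A ++ x :: B ∧ d ∉ labels A ∧ x.1 = d ∧ sub {d} B = t := by
  unfold sub at h
  rw [List.filter_eq_cons_iff] at h
  obtain ⟨A, B, h1, h2, h3, h4⟩ := h
  refine ⟨A, B, h1, ?_, by simpa using h3, h4⟩
  rw [mem_labels]
  rintro ⟨l, hl, hl1⟩
  exact h2 l hl (by simp [hl1])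

theorem sub_nil_dec {d : ℕ} {w : Word} (h : sub {d} w = []) : d ∉ labels w := by
  rw [mem_labels]
  rintro ⟨l, hl, hl1⟩
  have h1 : l ∈ sub {d} w := mem_sub.mpr ⟨hl, by simp [hl1]⟩
  rw [h] at h1
  exact absurd h1 List.not_mem_nil

theorem sub_of_not {d : ℕ} {w : Word} (h : d ∉ labels w) : sub {d} w = [] :=
  sub_eq_nil (by simpa using h)

theorem between_dec {c : ℕ} {A B C : Word} {l l' : Letter} (hl : l.1 = c) (hl' : l'.1 = c)
    (hA : c ∉ labels A) (hB : c ∉ labels B) :
    between c (shadow (A ++ l :: (B ++ l' :: C))) = shadow B := by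
  have e1 : ∀ W : Word, c ∉ labels W → ∀ x ∈ shadow W, decide (x.1 ≠ c) = true := by
    intro W hW x hx
    unfold shadow at hx
    rw [List.mem_map] at hx
    obtain ⟨m, hm, rfl⟩ := hx
    simp only [ne_eq, decide_eq_true_eq]
    intro h
    exact hW (mem_labels.mpr ⟨m, hm, h⟩)
  unfold between
  have e2 : shadow (A ++ l :: (B ++ l' :: C)) =
      shadow A ++ (l.1, l.2.1) :: (shadow B ++ (l'.1, l'.2.1) :: shadow C) := by
    simp [shadow]
  rw [e2, List.dropWhile_append_of_pos (e1 A hA), List.dropWhile_cons_of_neg (by simp [hl]),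
    List.tail_cons, List.takeWhile_append_of_pos (e1 B hB),
    List.takeWhile_cons_of_neg (by simp [hl']), List.append_nil]

theorem shadow_append (u v : Word) : shadow (u ++ v) = shadow u ++ shadow v := by
  simp [shadow]

theorem shadow_nodup {w : Word} (hw : IsGauss w) : (shadow w).Nodup := by
  rw [List.nodup_iff_count_le_one]
  intro x
  by_cases hx : x.1 ∈ labels w
  · obtain ⟨l, hl⟩ := hw x.1 hx
    have h1 : (shadow w).count x = (shadow (sub {x.1} w)).count x := by
      unfold shadow
      rw [List.count_eq_countP, List.count_eq_countP, List.countP_map, List.countP_map]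
      unfold sub
      rw [List.countP_filter]
      apply List.countP_congr
      intro m _
      simp only [Function.comp, beq_iff_eq, Finset.mem_singleton, Bool.and_eq_true,
        decide_eq_true_eq]
      constructor
      · intro h
        exact ⟨h, by rw [← h]⟩
      · intro h
        exact h.1
    rw [h1, hl]
    unfold shadow bar
    rcases l with ⟨l1, l2, l3⟩
    rcases x with ⟨x1, x2⟩
    simp only [List.map_cons, List.map_nil]
    rw [List.count_cons, List.count_cons, List.count_nil]
    cases l2 <;> cases x2 <;> simp <;> split_ifs <;> simp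
  · have h1 : x ∉ shadow w := by
      intro h
      unfold shadow at h
      rw [List.mem_map] at h
      obtain ⟨m, hm, rfl⟩ := h
      exact hx (mem_labels.mpr ⟨m, hm, rfl⟩)
    rw [List.count_eq_zero.mpr h1]
    exact Nat.zero_le 1

/-- a letter of `d` lies between the letters of `c` -/
def ins (w : Word) (d c : ℕ) : Prop := ∃ y ∈ between c (shadow w), y.1 = d

theorem mem_shadow {w : Word} {x : ℕ × Bool} : x ∈ shadow w ↔ ∃ l ∈ w, (l.1, l.2.1) = x := by
  unfold shadow
  rw [List.mem_map]

theorem ins_shadow {W : Word} {d : ℕ} : (∃ y ∈ shadow W, y.1 = d) ↔ d ∈ labels W := by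
  constructor
  · rintro ⟨y, hy, rfl⟩
    obtain ⟨l, hl, rfl⟩ := mem_shadow.mp hy
    exact mem_labels.mpr ⟨l, hl, rfl⟩
  · intro h
    obtain ⟨l, hl, rfl⟩ := mem_labels.mp h
    exact ⟨(l.1, l.2.1), mem_shadow.mpr ⟨l, hl, rfl⟩, rfl⟩

theorem dich {w : Word} (hw : IsGauss w) {c d : ℕ} (hc : c ∈ labels w) (hd : d ∈ labels w)
    (hcd : c ≠ d) (hil : ¬ il w c d) :
    (ins w d c ∧ (∀ x ∈ between d (shadow w), x ∈ between c (shadow w)) ∧
      (∀ l ∈ w, l.1 = d → (l.1, l.2.1) ∈ between c (shadow w)) ∧
      (between d (shadow w)).length < (between c (shadow w)).length) ∨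
    (¬ ins w d c ∧ (ins w c d ∨ ∀ x ∈ between c (shadow w), x ∉ between d (shadow w))) := by
  have hnd := shadow_nodup hw
  obtain ⟨l, hl⟩ := hw c hc
  obtain ⟨m, hm⟩ := hw d hd
  obtain ⟨A, W, hW, hA, hl1, h1⟩ := sub_cons_dec hl
  obtain ⟨B, C, hBC, hB, hl2, h2⟩ := sub_cons_dec h1
  have hC := sub_nil_dec h2
  subst hBC
  have hm1 : m.1 = d := (sub_cons_dec hm).choose_spec.choose_spec.2.2.1
  have hbm1 : (bar m).1 = d := hm1
  have hbc : between c (shadow w) = shadow B := by
    rw [hW]
    exact between_dec hl1 hl2 hA hB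
  have hnl : l.1 ∉ ({d} : Finset ℕ) := by
    rw [hl1]
    simpa using hcd
  have hnl2 : (bar l).1 ∉ ({d} : Finset ℕ) := by
    rw [hl2]
    simpa using hcd
  have hsub : sub {d} A ++ (sub {d} B ++ sub {d} C) = [m, bar m] := by
    rw [← hm, hW, sub_append, sub_cons, if_neg hnl, sub_append, sub_cons, if_neg hnl2]
  have hsub2 : ∀ X Y Z : Word, sub {d} A = X → sub {d} B = Y → sub {d} C = Z →
      sub {c, d} w = X ++ l :: (Y ++ bar l :: Z) := by
    intro X Y Z hX hY hZ
    have e1 : ∀ U : Word, c ∉ labels U → sub {c, d} U = sub {d} U := by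
      intro U hU
      apply sub_congr
      ext e
      simp only [Finset.mem_inter, Finset.mem_insert, Finset.mem_singleton]
      constructor
      · rintro ⟨rfl | h, h'⟩
        · exact absurd h' hU
        · exact ⟨h, h'⟩
      · rintro ⟨h, h'⟩
        exact ⟨Or.inr h, h'⟩
    rw [hW, sub_append, sub_cons, if_pos (by simp [hl1]), sub_append, sub_cons,
      if_pos (by simp [hl2]), e1 A hA, e1 B hB, e1 C hC, hX, hY, hZ]
  rw [hbc]
  -- cases on the position of the letters of d
  rcases hBd : sub {d} B with _ | ⟨b1, _ | ⟨b2, tb⟩⟩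
  · right
    have hdB := sub_nil_dec hBd
    refine ⟨?_, ?_⟩
    · unfold ins
      rw [hbc, ins_shadow]
      exact hdB
    rw [hBd, List.nil_append] at hsub
    rcases hAd : sub {d} A with _ | ⟨a1, _ | ⟨a2, ta⟩⟩
    · right
      rw [hAd, List.nil_append] at hsub
      obtain ⟨C1, C', hC', hC1, -, hsubC'⟩ := sub_cons_dec hsub
      obtain ⟨C2, C3, hC3, hC2, -, -⟩ := sub_cons_dec hsubC'
      have hdA := sub_nil_dec hAd
      have e1 : w = (A ++ l :: (B ++ bar l :: C1)) ++ m :: (C2 ++ bar m :: C3) := by
        rw [hW, hC', hC3]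
        simp
      have e2 : d ∉ labels (A ++ l :: (B ++ bar l :: C1)) := by
        rw [labels_append, labels_cons, labels_append, labels_cons]
        simp only [Finset.mem_union, Finset.mem_insert, not_or]
        exact ⟨hdA, by rw [hl1]; exact hcd.symm, hdB, by rw [hl2]; exact hcd.symm, hC1⟩
      have e3 : between d (shadow w) = shadow C2 := by
        rw [e1]
        exact between_dec hm1 hbm1 e2 hC2
      rw [e3]
      intro x hx hx'
      rw [hW, hC', hC3] at hnd
      simp only [shadow, List.map_append, List.map_cons] at hnd hx hx'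
      simp only [List.nodup_append, List.nodup_cons, List.mem_append, List.mem_cons] at hnd
      exact hnd.2.1.2.2.2 x hx x (Or.inr (Or.inr (Or.inr (Or.inl hx')))) rfl
    · left
      rw [hAd] at hsub
      simp only [List.cons_append, List.nil_append, List.cons.injEq] at hsub
      obtain ⟨rfl, hCd⟩ := hsub
      obtain ⟨A1, A2, hA', hA1, -, hsA2⟩ := sub_cons_dec hAd
      obtain ⟨C1, C2, hC', hC1, -, -⟩ := sub_cons_dec hCd
      have hA2 := sub_nil_dec hsA2
      have e1 : w = A1 ++ a1 :: ((A2 ++ l :: (B ++ bar l :: C1)) ++ bar a1 :: C2) := by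
        rw [hW, hA', hC']
        simp
      have e2 : d ∉ labels (A2 ++ l :: (B ++ bar l :: C1)) := by
        rw [labels_append, labels_cons, labels_append, labels_cons]
        simp only [Finset.mem_union, Finset.mem_insert, not_or]
        exact ⟨hA2, by rw [hl1]; exact hcd.symm, hdB, by rw [hl2]; exact hcd.symm, hC1⟩
      have e3 : between d (shadow w) = shadow (A2 ++ l :: (B ++ bar l :: C1)) := by
        rw [e1]
        exact between_dec hm1 hbm1 hA1 e2
      unfold ins
      rw [e3, ins_shadow, labels_append, labels_cons]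
      simp [hl1]
    · right
      rw [hAd] at hsub
      simp only [List.cons_append, List.cons.injEq] at hsub
      obtain ⟨rfl, rfl, h5⟩ := hsub
      obtain ⟨A1, A', hA', hA1, -, hsubA'⟩ := sub_cons_dec hAd
      obtain ⟨A2, A3, hA3, hA2, -, -⟩ := sub_cons_dec hsubA'
      have e1 : w = A1 ++ a1 :: (A2 ++ bar a1 :: (A3 ++ l :: (B ++ bar l :: C))) := by
        rw [hW, hA', hA3]
        simp
      have e3 : between d (shadow w) = shadow A2 := by
        rw [e1]
        exact between_dec hm1 hbm1 hA1 hA2
      rw [e3]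
      intro x hx hx'
      rw [e1] at hnd
      simp only [shadow, List.map_append, List.map_cons] at hnd hx hx'
      simp only [List.nodup_append, List.nodup_cons, List.mem_append, List.mem_cons] at hnd
      exact hnd.2.1.2.2.2 x hx' x (Or.inr (Or.inr (Or.inr (Or.inl hx)))) rfl
  · exfalso
    rw [hBd] at hsub
    rcases hAd : sub {d} A with _ | ⟨a1, _ | ⟨a2, ta⟩⟩
    · rw [hAd] at hsub
      simp only [List.cons_append, List.nil_append, List.cons.injEq] at hsub
      obtain ⟨rfl, hCd⟩ := hsub
      apply hil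
      left
      rw [hsub2 _ _ _ hAd hBd hCd]
      simp [hl1, hl2, hm1, hbm1]
    · rw [hAd] at hsub
      simp only [List.cons_append, List.nil_append, List.cons.injEq] at hsub
      obtain ⟨rfl, rfl, hCd⟩ := hsub
      apply hil
      right
      rw [hsub2 _ _ _ hAd hBd hCd]
      simp [hl1, hl2, hm1, hbm1]
    · rw [hAd] at hsub
      simp at hsub
  · left
    rw [hBd] at hsub
    have hAd : sub {d} A = [] := by
      rcases hAd : sub {d} A with _ | ⟨a1, ta⟩
      · rfl
      · exfalso
        rw [hAd] at hsub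
        have h7 := congrArg List.length hsub
        simp only [List.length_append, List.length_cons, List.length_nil] at h7
        omega
    rw [hAd] at hsub
    simp only [List.cons_append, List.nil_append, List.cons.injEq, List.append_eq_nil_iff] at hsub
    obtain ⟨rfl, rfl, rfl, hCd⟩ := hsub
    have hdA := sub_nil_dec hAd
    have hdC := sub_nil_dec hCd
    obtain ⟨B1, B', hB', hB1, -, hsubB'⟩ := sub_cons_dec hBd
    obtain ⟨B2, B3, hB3, hB2, -, hsB3⟩ := sub_cons_dec hsubB'
    have hdB3 := sub_nil_dec hsB3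
    have e1 : w = (A ++ l :: B1) ++ b1 :: (B2 ++ bar b1 :: (B3 ++ bar l :: C)) := by
      rw [hW, hB', hB3]
      simp
    have e2 : d ∉ labels (A ++ l :: B1) := by
      rw [labels_append, labels_cons]
      simp only [Finset.mem_union, Finset.mem_insert, not_or]
      exact ⟨hdA, by rw [hl1]; exact hcd.symm, hB1⟩
    have e3 : between d (shadow w) = shadow B2 := by
      rw [e1]
      exact between_dec hm1 hbm1 e2 hB2
    have e4 : shadow B = shadow B1 ++ (b1.1, b1.2.1) ::
        (shadow B2 ++ ((bar b1).1, (bar b1).2.1) :: shadow B3) := by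
      rw [hB', hB3]
      simp [shadow]
    refine ⟨?_, ?_, ?_, ?_⟩
    · unfold ins
      rw [hbc, ins_shadow, hB', labels_append, labels_cons]
      simp [hm1]
    · intro x hx
      rw [e3] at hx
      rw [e4]
      simp [hx]
    · intro k hk hkd
      have h6 : k ∈ sub {d} w := mem_sub.mpr ⟨hk, by simp [hkd]⟩
      rw [hm] at h6
      simp only [List.mem_cons, List.not_mem_nil, or_false] at h6
      rw [e4]
      rcases h6 with rfl | rfl
      · simp
      · simp
    · rw [e3, e4]
      simp only [List.length_append, List.length_cons]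
      omega

theorem not_ins_self {w : Word} {c : ℕ} : ¬ ins w c c := by
  rintro ⟨y, hy, hyc⟩
  unfold between at hy
  have h := List.mem_takeWhile_imp hy
  simp [hyc] at h

theorem dich_ins {w : Word} (hw : IsGauss w) {c d : ℕ} (hc : c ∈ labels w) (hd : d ∈ labels w)
    (hcd : c ≠ d) (hil : ¬ il w c d) (hi : ins w d c) :
    (∀ x ∈ between d (shadow w), x ∈ between c (shadow w)) ∧
      (∀ l ∈ w, l.1 = d → (l.1, l.2.1) ∈ between c (shadow w)) ∧
      (between d (shadow w)).length < (between c (shadow w)).length := by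
  rcases dich hw hc hd hcd hil with h | h
  · exact h.2
  · exact absurd hi h.1

theorem shadow_labels (w : Word) : ((shadow w).map Prod.fst).toFinset = labels w := by
  unfold shadow labels
  rw [List.map_map]
  rfl

theorem lc_eq {w : Word} {a : ℕ} {M : Finset ℕ} (ha : a ∈ labels w) (hM : M ⊆ labels w)
    (haM : a ∉ M) (x : ℕ × Bool) :
    lc (shadow w) (fun e => if e = a then 1 else if e ∈ M then -1 else 0) x =
      wt a (shadow w) x - ∑ c ∈ M, wt c (shadow w) x := by
  unfold lc
  rw [shadow_labels]
  have e1 : ∀ e ∈ labels w, (if e = a then (1 : ℤ) else if e ∈ M then -1 else 0) *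
      wt e (shadow w) x =
      (if e = a then wt e (shadow w) x else 0) - (if e ∈ M then wt e (shadow w) x else 0) := by
    intro e _
    by_cases h1 : e = a
    · subst h1
      rw [if_pos rfl, if_pos rfl, if_neg haM]
      ring
    · rw [if_neg h1, if_neg h1]
      by_cases h2 : e ∈ M
      · rw [if_pos h2, if_pos h2]
        ring
      · rw [if_neg h2, if_neg h2]
        ring
  rw [Finset.sum_congr rfl e1, Finset.sum_sub_distrib, Finset.sum_ite_eq' (labels w) a,
    if_pos ha, Finset.sum_ite_mem, Finset.inter_eq_right.mpr hM]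

/-- **PLS** -/
theorem pls : PlsStmt := by
  classical
  intro w hw S a ha hS haS hN
  have hil : ∀ c ∈ insert a S, ∀ d ∈ insert a S, ¬ il w c d := hN
  set M : Finset ℕ := S.filter (fun c => ins w c a ∧ ∀ c' ∈ S, ins w c' a → ¬ ins w c c')
    with hMdef
  have hMS : ∀ c ∈ M, c ∈ S ∧ ins w c a ∧ ∀ c' ∈ S, ins w c' a → ¬ ins w c c' := by
    intro c hc
    rw [hMdef, Finset.mem_filter] at hc
    exact hc
  have hMl : M ⊆ labels w := fun c hc => hS (hMS c hc).1
  have haM : a ∉ M := fun h => haS (hMS a h).1
  have hMa : ∀ c ∈ M, (∀ x ∈ between c (shadow w), x ∈ between a (shadow w)) ∧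
      (∀ l ∈ w, l.1 = c → (l.1, l.2.1) ∈ between a (shadow w)) := by
    intro c hc
    obtain ⟨h1, h2, h3⟩ := hMS c hc
    have h4 := dich_ins hw ha (hS h1) (fun h => haS (h ▸ h1))
      (hil a (Finset.mem_insert_self a S) c (Finset.mem_insert_of_mem h1)) h2
    exact ⟨h4.1, h4.2.1⟩
  refine ⟨fun e => if e = a then 1 else if e ∈ M then -1 else 0, ?_, ?_⟩
  · intro l hl hla hlS
    rw [lc_eq ha hMl haM]
    have hwa : wt a (shadow w) (l.1, l.2.1) =
        if (l.1, l.2.1) ∈ between a (shadow w) then 2 else 0 := by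
      unfold wt
      rw [if_neg hla]
    have hwc : ∀ c ∈ M, wt c (shadow w) (l.1, l.2.1) =
        if (l.1, l.2.1) ∈ between c (shadow w) then 2 else 0 := by
      intro c hc
      unfold wt
      rw [if_neg]
      intro h
      apply hlS
      have h5 : l.1 = c := h
      rw [h5]
      exact (hMS c hc).1
    rw [hwa, Finset.sum_congr rfl hwc]
    constructor
    · rintro ⟨h1, h2⟩
      rw [if_pos h1, Finset.sum_eq_zero]
      · ring
      · intro c hc
        rw [if_neg]
        exact h2 c (hMS c hc).1 (hMS c hc).2.1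
    · intro hni
      by_cases hx : (l.1, l.2.1) ∈ between a (shadow w)
      · have hex : ∃ c ∈ S, ins w c a ∧ (l.1, l.2.1) ∈ between c (shadow w) := by
          by_contra hcon
          apply hni
          refine ⟨hx, ?_⟩
          intro c hc hy hxc
          exact hcon ⟨c, hc, hy, hxc⟩
        obtain ⟨c0, hc0S, hc0a, hc0x⟩ := hex
        obtain ⟨c, hcT, hcmax⟩ := Finset.exists_max_image
          (S.filter (fun c => ins w c a ∧ (l.1, l.2.1) ∈ between c (shadow w)))
          (fun c => (between c (shadow w)).length)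
          ⟨c0, Finset.mem_filter.mpr ⟨hc0S, hc0a, hc0x⟩⟩
        obtain ⟨hcS, hca, hcx⟩ := Finset.mem_filter.mp hcT
        have hcM : c ∈ M := by
          rw [hMdef, Finset.mem_filter]
          refine ⟨hcS, hca, ?_⟩
          intro c' hc'S hc'a hcc'
          have hne : c' ≠ c := by
            rintro rfl
            exact not_ins_self hcc'
          have h6 := dich_ins hw (hS hc'S) (hS hcS) hne
            (hil c' (Finset.mem_insert_of_mem hc'S) c (Finset.mem_insert_of_mem hcS)) hcc'
          have h7 := hcmax c' (Finset.mem_filter.mpr ⟨hc'S, hc'a, h6.1 _ hcx⟩)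
          have h8 := h6.2.2
          omega
        rw [if_pos hx, Finset.sum_eq_single_of_mem c hcM, if_pos hcx]
        · ring
        · intro d hd hdc
          rw [if_neg]
          intro hdx
          obtain ⟨hdS, hda, hdM⟩ := hMS d hd
          rcases dich hw (hS hcS) (hS hdS) hdc.symm
            (hil c (Finset.mem_insert_of_mem hcS) d (Finset.mem_insert_of_mem hdS)) with h | h
          · exact hdM c hcS hca h.1
          · rcases h.2 with h9 | h9
            · exact (hMS c hcM).2.2 d hdS hda h9
            · exact h9 _ hcx hdx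
      · rw [if_neg hx, Finset.sum_eq_zero]
        · ring
        · intro c hc
          rw [if_neg]
          intro h
          exact hx ((hMa c hc).1 _ h)
  · intro l hl hne
    rw [lc_eq ha hMl haM] at hne
    by_contra hcon
    rw [not_or] at hcon
    apply hne
    have hwa : wt a (shadow w) (l.1, l.2.1) = 0 := by
      unfold wt
      rw [if_neg hcon.1, if_neg hcon.2]
    rw [hwa, Finset.sum_eq_zero]
    · ring
    · intro c hc
      unfold wt
      rw [if_neg, if_neg]
      · intro h
        exact hcon.2 ((hMa c hc).1 _ h)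
      · intro h
        exact hcon.2 ((hMa c hc).2 l hl h)

end Pool.Agent.VTP.H55
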